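import Pool.Agent.helper11.TX.Spec

/-!
# Project TX: the local factors of admissible triples
-/

namespace Pool.Agent.helper11.TX

open Finset

lemma CL_Er_mul (w : ℕ) {m n : ℕ} (h : Nat.Coprime m n) : Er w (m * n) = Er w m * Er w n := by
  unfold Er
  rw [h.primeFactors_mul, filter_union, prod_union]
  exact disjoint_filter_filter h.disjoint_primeFactors

theorem CL : CL_stmt := by
  intro w a b c hw hadm
  obtain ⟨ha, hb, hc, hab, hac, hbc, hodd⟩ := hadm
  have hac' : Nat.Coprime a c.natAbs := by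
    have := Int.isCoprime_iff_gcd_eq_one.mp hac
    simpa [Int.gcd] using this
  have hbc' : Nat.Coprime b c.natAbs := by
    have := Int.isCoprime_iff_gcd_eq_one.mp hbc
    simpa [Int.gcd] using this
  have hc' : c.natAbs ≠ 0 := Int.natAbs_ne_zero.mpr hc
  set n := a * b * c.natAbs with hn
  have hn0 : n ≠ 0 := by positivity
  have hEr : Er w a * Er w b * Er w c.natAbs = Er w n := by
    rw [← CL_Er_mul w hab, ← CL_Er_mul w (Nat.Coprime.mul_left hac' hbc')]
  have h2n : 2 ∣ n := by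
    by_contra h
    apply hodd
    have h1 : Odd n := by rwa [← Nat.not_even_iff_odd, even_iff_two_dvd]
    rw [hn, Nat.odd_mul, Nat.odd_mul] at h1
    exact ⟨h1.1.1, h1.1.2, Int.natAbs_odd.mp h1.2⟩
  have hdvd : ∀ l : ℕ, ((l : ℤ) ∣ a * b * c) ↔ l ∣ n := by
    intro l
    rw [Int.natCast_dvd, Int.natAbs_mul, Int.natAbs_mul, Int.natAbs_natCast, Int.natAbs_natCast]
  rw [hEr]
  have hE : Er w n = ∏ l ∈ (n.primeFactors.filter (fun l => l ≠ 2)).filter (fun l => w < l),
      ((l : ℝ) - 1) / ((l : ℝ) - 2) := by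
    unfold Er
    have e : (n.primeFactors.filter (fun l => l ≠ 2)).filter (fun l => w < l)
        = n.primeFactors.filter (fun l => w < l) := by
      ext l
      simp only [mem_filter]
      constructor
      · rintro ⟨⟨h1, h2⟩, h3⟩; exact ⟨h1, h3⟩
      · rintro ⟨h1, h3⟩; exact ⟨⟨h1, by omega⟩, h3⟩
    rw [e]
    refine prod_congr rfl fun l hl => ?_
    have h1 : w < l := (mem_filter.mp hl).2
    have h3 : (3 : ℝ) ≤ l := by exact_mod_cast (by omega : 3 ≤ l)
    have h4 : (l : ℝ) - 2 ≠ 0 := by linarith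
    field_simp
    ring
  have hSS : SS a b c = (∏ l ∈ (n.primeFactors.filter (fun l => l ≠ 2)).filter (fun l => ¬ w < l),
      ((l : ℝ) - 1) / ((l : ℝ) - 2)) * Er w n := by
    unfold SS
    rw [hE, ← hn, mul_comm]
    exact (prod_filter_mul_prod_filter_not _ _ _).symm
  rw [hSS, ← mul_assoc]
  congr 1
  -- the primes up to w
  unfold Lam cW
  rw [primeFactors_primorial]
  have h2m : 2 ∈ Nat.primesLE w := Nat.mem_primesLE.mpr ⟨hw, Nat.prime_two⟩
  have e1 : Nat.primesLE w = insert 2 ((Nat.primesLE w).filter (fun l => l ≠ 2)) := by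
    ext l
    simp only [mem_insert, mem_filter]
    constructor
    · intro h
      by_cases h' : l = 2
      · left; exact h'
      · right; exact ⟨h, h'⟩
    · rintro (rfl | h)
      · exact h2m
      · exact h.1
  have e2 : ∏ l ∈ Nat.primesLE w, (if (l : ℤ) ∣ a * b * c then 1 - 1 / (l : ℝ) else 1 - 2 / (l : ℝ))
      = 1 / 2 * ∏ l ∈ (Nat.primesLE w).filter (fun l => l ≠ 2),
        (if (l : ℤ) ∣ a * b * c then 1 - 1 / (l : ℝ) else 1 - 2 / (l : ℝ)) := by
    conv_lhs => rw [e1]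
    rw [prod_insert (by simp), if_pos ((hdvd 2).mpr h2n)]
    norm_num
  rw [e2, mul_assoc]
  congr 1
  have e3 : (n.primeFactors.filter (fun l => l ≠ 2)).filter (fun l => ¬ w < l)
      = ((Nat.primesLE w).filter (fun l => l ≠ 2)).filter (fun l => l ∣ n) := by
    ext l
    simp only [mem_filter, Nat.mem_primesLE, Nat.mem_primeFactors]
    constructor
    · rintro ⟨⟨⟨h1, h2, h3⟩, h4⟩, h5⟩; exact ⟨⟨⟨by omega, h1⟩, h4⟩, h2⟩
    · rintro ⟨⟨⟨h1, h2⟩, h3⟩, h4⟩; exact ⟨⟨⟨h2, h4, hn0⟩, h3⟩, by omega⟩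
  rw [e3, prod_filter (fun l => l ∣ n), ← prod_mul_distrib]
  refine prod_congr rfl fun l hl => ?_
  obtain ⟨h1, h2⟩ := mem_filter.mp hl
  have h3 : 3 ≤ l := by
    have := (Nat.mem_primesLE.mp h1).2.two_le
    omega
  have h4 : (3 : ℝ) ≤ l := by exact_mod_cast h3
  have h5 : (l : ℝ) - 2 ≠ 0 := by linarith
  have h6 : (l : ℝ) ≠ 0 := by linarith
  by_cases hd : l ∣ n
  · rw [if_pos hd, if_pos ((hdvd l).mpr hd)]
    field_simp
  · rw [if_neg hd, if_neg (fun h => hd ((hdvd l).mp h)), mul_one]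

end Pool.Agent.helper11.TX
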