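import Pool.Agent.helper11.TX.Spec
import Pool.Agent.Lib.PrimeSums

/-!
# Project TX: Mertens' lower bound
-/

namespace Pool.Agent.helper11.TX

open Finset

lemma MP_inv_one_sub {t : ℝ} (h0 : 0 ≤ t) (h1 : t ≤ 1 / 2) : Real.exp (-(t + t ^ 2)) ≤ 1 - t := by
  have h2 := Real.quadratic_le_exp_of_nonneg (by positivity : 0 ≤ t + t ^ 2)
  rw [Real.exp_neg, inv_le_comm₀ (Real.exp_pos _) (by linarith)]
  refine le_trans ?_ h2
  rw [inv_le_iff_one_le_mul₀ (by linarith)]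
  have h3 : t ^ 3 ≤ t ^ 2 / 2 := by nlinarith [sq_nonneg t]
  have h4 : t ^ 4 ≤ t ^ 2 / 4 := by nlinarith [sq_nonneg t, sq_nonneg (t ^ 2)]
  have h5 : t ^ 5 ≤ t ^ 2 / 8 := by nlinarith [sq_nonneg t, sq_nonneg (t ^ 2)]
  nlinarith [sq_nonneg t]

lemma MP_primeFactors (w : ℕ) : (primorial w).primeFactors = Nat.primesLE w := by
  have h : primorial w = ∏ p ∈ (range (w + 1)).filter Nat.Prime, p := rfl
  rw [h, Nat.primeFactors_prod (fun p hp => (mem_filter.mp hp).2)]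
  ext p
  simp [Nat.mem_primesLE]

lemma MP_sq_sum (n : ℕ) : ∑ p ∈ Nat.primesLE n, (1 / (p : ℝ)) ^ 2 ≤ 2 := by
  have h1 : ∑ p ∈ Nat.primesLE n, (1 / (p : ℝ)) ^ 2 ≤ ∑ p ∈ Ioc 0 n, (1 / (p : ℝ)) ^ 2 := by
    refine sum_le_sum_of_subset_of_nonneg (fun p hp => ?_) (fun _ _ _ => by positivity)
    obtain ⟨h1, h2⟩ := Nat.mem_primesLE.mp hp
    rw [mem_Ioc]
    exact ⟨h2.pos, h1⟩
  refine h1.trans ?_
  have h2 := sum_Ioo_inv_sq_le (α := ℝ) 0 (n + 1)
  have e : Ioo 0 (n + 1) = Ioc 0 n := by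
    ext p; simp
  rw [e] at h2
  refine le_trans (le_of_eq (sum_congr rfl fun p _ => ?_)) (h2.trans (by norm_num))
  rw [one_div, inv_pow]

theorem MP : MP_stmt := by
  refine ⟨Real.exp (-6), Real.exp_pos _, fun w hw => ?_⟩
  have hw1 : (1 : ℝ) < w := by exact_mod_cast (by omega : 1 < w)
  have hlog : 0 < Real.log w := Real.log_pos hw1
  unfold PW
  rw [MP_primeFactors]
  have h1 : ∏ p ∈ Nat.primesLE w, Real.exp (-(1 / (p : ℝ) + (1 / (p : ℝ)) ^ 2))
      ≤ ∏ p ∈ Nat.primesLE w, (1 - 1 / (p : ℝ)) := by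
    refine prod_le_prod (fun p _ => (Real.exp_pos _).le) fun p hp => ?_
    have hp2 : (2 : ℝ) ≤ p := by exact_mod_cast (Nat.mem_primesLE.mp hp).2.two_le
    refine MP_inv_one_sub (by positivity) ?_
    rw [one_div, one_div]
    exact inv_anti₀ (by norm_num) hp2
  refine le_trans ?_ h1
  rw [← Real.exp_sum, sum_neg_distrib, sum_add_distrib]
  have h2 := Pool.Agent.Lib.PrimeSums.sum_inv_le w hw
  have h3 := MP_sq_sum w
  have h4 : Real.exp (-6) / Real.log w = Real.exp (-(Real.log (Real.log w) + 6)) := by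
    rw [neg_add, Real.exp_add, Real.exp_neg (Real.log (Real.log w)), Real.exp_log hlog]
    ring
  rw [h4, Real.exp_le_exp]
  linarith

end Pool.Agent.helper11.TX
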