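import Pool.Agent.helper11.TX.Spec

/-!
# Project TX: numbers
-/

namespace Pool.Agent.helper11.TX

open Finset

lemma NU_pf30 : (30 : ℕ).primeFactors = {2, 3, 5} := by
  have h : (30 : ℕ) = ∏ p ∈ ({2, 3, 5} : Finset ℕ), p := by decide
  rw [h, Nat.primeFactors_prod]
  intro p hp
  simp only [mem_insert, mem_singleton] at hp
  rcases hp with rfl | rfl | rfl <;> norm_num

/-- `1/n^3 ≤ 1/(2 (n-1)^2)... ` telescoping bound. -/
lemma NU_step (n : ℕ) (hn : 2 ≤ n) :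
    1 / (n : ℝ) ^ 3 ≤ 1 / (2 * ((n : ℝ) - 1) ^ 2) - 1 / (2 * (n : ℝ) ^ 2) := by
  have h : (2 : ℝ) ≤ n := by exact_mod_cast hn
  have h1 : 0 < (n : ℝ) - 1 := by linarith
  have h0 : 0 < (n : ℝ) := by linarith
  rw [div_sub_div _ _ (by positivity) (by positivity), div_le_div_iff₀ (by positivity) (by positivity)]
  have e : ∀ x : ℝ, (1 * (2 * x ^ 2) - 2 * (x - 1) ^ 2 * 1) * x ^ 3
      - 1 * (2 * (x - 1) ^ 2 * (2 * x ^ 2)) = x ^ 2 * (4 * x ^ 2 - 2 * x - 4 * (x - 1) ^ 2) := by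
    intro x; ring
  have e2 := e n
  have e3 : 0 ≤ (n : ℝ) ^ 2 * (4 * (n : ℝ) ^ 2 - 2 * n - 4 * ((n : ℝ) - 1) ^ 2) := by
    apply mul_nonneg (by positivity)
    nlinarith
  linarith

lemma NU_tail (k m : ℕ) (hk : 1 ≤ k) (hkm : k ≤ m) :
    ∑ n ∈ Ioc k m, 1 / (n : ℝ) ^ 3 ≤ 1 / (2 * (k : ℝ) ^ 2) - 1 / (2 * (m : ℝ) ^ 2) := by
  induction m, hkm using Nat.le_induction with
  | base => simp
  | succ m hm ih =>
    rw [sum_Ioc_succ_top hm]
    have h := NU_step (m + 1) (by omega)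
    push_cast at h ⊢
    have e : (m : ℝ) + 1 - 1 = m := by ring
    rw [e] at h
    linarith

lemma NU_tail' (k m : ℕ) (hk : 1 ≤ k) :
    ∑ n ∈ Ioc k m, 1 / (n : ℝ) ^ 3 ≤ 1 / (2 * (k : ℝ) ^ 2) := by
  rcases le_or_gt k m with h | h
  · have h1 := NU_tail k m hk h
    have : 0 ≤ 1 / (2 * (m : ℝ) ^ 2) := by positivity
    linarith
  · rw [Ioc_eq_empty (by omega), sum_empty]
    positivity

lemma NU_T3_30 (G : ℕ) : T3 30 G ≤ 1 / 100 := by
  unfold T3
  have h1 : ((Icc 1 G).filter fun l => l.Prime ∧ ¬ l ∣ 30) ⊆ {7, 11} ∪ Ioc 12 G := by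
    intro l hl
    simp only [mem_filter, mem_Icc] at hl
    obtain ⟨⟨h1, h2⟩, h3, h4⟩ := hl
    simp only [mem_union, mem_insert, mem_singleton, mem_Ioc]
    by_contra h
    push Not at h
    have h5 : l ≤ 12 := by
      by_contra h6
      have := h.2 (by omega)
      omega
    interval_cases l <;> simp_all (decide := true)
  refine (sum_le_sum_of_subset_of_nonneg h1 fun _ _ _ => by positivity).trans ?_
  have h2 : ∑ l ∈ ({7, 11} : Finset ℕ) ∪ Ioc 12 G, 1 / (l : ℝ) ^ 3 ≤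
      ∑ l ∈ ({7, 11} : Finset ℕ), 1 / (l : ℝ) ^ 3 + ∑ l ∈ Ioc 12 G, 1 / (l : ℝ) ^ 3 := by
    rw [← sum_union_inter]
    have : 0 ≤ ∑ l ∈ ({7, 11} : Finset ℕ) ∩ Ioc 12 G, 1 / (l : ℝ) ^ 3 :=
      sum_nonneg fun _ _ => by positivity
    linarith
  have h3 := NU_tail' 12 G (by norm_num)
  have h4 : ∑ l ∈ ({7, 11} : Finset ℕ), 1 / (l : ℝ) ^ 3 = 1 / 343 + 1 / 1331 := by
    rw [sum_insert (by decide), sum_singleton]
    norm_num
  rw [h4] at h2
  have e : (1 : ℝ) / (2 * ((12 : ℕ) : ℝ) ^ 2) = 1 / 288 := by norm_num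
  rw [e] at h3
  norm_num at h2 h3 ⊢
  linarith

lemma NU_T3_prim (w G : ℕ) (hw : 1 ≤ w) : T3 (primorial w) G ≤ 1 / (2 * (w : ℝ) ^ 2) := by
  unfold T3
  refine (sum_le_sum_of_subset_of_nonneg (t := Ioc w G) (fun l hl => ?_) fun _ _ _ => by positivity).trans
    (NU_tail' w G hw)
  simp only [mem_filter, mem_Icc] at hl
  obtain ⟨⟨h1, h2⟩, h3, h4⟩ := hl
  rw [h3.dvd_primorial_iff] at h4
  rw [mem_Ioc]
  omega

theorem NU : NU_stmt := by
  refine ⟨?_, fun a b c h => ?_, NU_T3_30, fun η hη => ?_⟩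
  · unfold PW
    rw [NU_pf30, prod_insert (by decide), prod_insert (by decide), prod_singleton]
    norm_num
  · unfold Lam
    rw [NU_pf30, prod_insert (by decide), prod_insert (by decide), prod_singleton]
    have h2 : ((2 : ℕ) : ℤ) ∣ a * b * c := by
      obtain ⟨-, -, -, -, -, -, h⟩ := h
      by_contra h3
      apply h
      have h4 : Odd ((a : ℤ) * b * c) := by
        rw [← Int.not_even_iff_odd, even_iff_two_dvd]
        exact_mod_cast h3
      rw [Int.odd_mul, Int.odd_mul] at h4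
      refine ⟨?_, ?_, h4.2⟩
      · exact_mod_cast h4.1.1
      · exact_mod_cast h4.1.2
    rw [if_pos h2]
    split_ifs <;> norm_num
  · obtain ⟨w₀, hw₀⟩ := exists_nat_gt (1 / η)
    refine ⟨max w₀ 5, fun w hw => ⟨?_, fun G => ?_⟩⟩
    · have h5 : 5 ≤ w := (le_max_right _ _).trans hw
      refine dvd_trans ?_ (primorial_dvd_primorial h5)
      decide
    · have h5 : 5 ≤ w := (le_max_right _ _).trans hw
      have h6 : w₀ ≤ w := (le_max_left _ _).trans hw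
      refine (NU_T3_prim w G (by omega)).trans ?_
      have h7 : (w₀ : ℝ) ≤ w := by exact_mod_cast h6
      have h8 : 1 / η < w := by linarith
      have h9 : (1 : ℝ) ≤ w := by exact_mod_cast (by omega : 1 ≤ w)
      rw [div_lt_iff₀ hη] at h8
      rw [div_le_div_iff₀ (by positivity) (by norm_num)]
      nlinarith [mul_pos hη (by linarith : (0 : ℝ) < w)]

end Pool.Agent.helper11.TX
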