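import Pool.Agent.helper11.TX.Spec

/-!
# Project TX: the weighted sum over the admissible triples
-/

namespace Pool.Agent.helper11.TX

open Finset

lemma HC_Er_one_le (w n : ℕ) (hw : 2 ≤ w) : 1 ≤ Er w n := by
  unfold Er
  refine le_trans (le_of_eq (prod_const_one (s := n.primeFactors.filter (fun l => w < l))).symm)
    (prod_le_prod (fun _ _ => zero_le_one) fun l hl => ?_)
  have h1 : w < l := (mem_filter.mp hl).2
  have h3 : (3 : ℝ) ≤ l := by exact_mod_cast (by omega : 3 ≤ l)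
  have : 0 ≤ 1 / ((l : ℝ) - 2) := by
    apply div_nonneg zero_le_one
    linarith
  linarith

lemma HC_Lam_nonneg (W a b : ℕ) (c : ℤ) : 0 ≤ Lam W a b c := by
  unfold Lam
  refine prod_nonneg fun l hl => ?_
  have h2 : (2 : ℝ) ≤ l := by exact_mod_cast (Nat.prime_of_mem_primeFactors hl).two_le
  have h3 : 2 / (l : ℝ) ≤ 1 := by rw [div_le_one (by linarith)]; exact h2
  have h4 : 1 / (l : ℝ) ≤ 1 := by rw [div_le_one (by linarith)]; linarith
  split_ifs <;> linarith

lemma HC_Lam_le_one (W a b : ℕ) (c : ℤ) : Lam W a b c ≤ 1 := by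
  unfold Lam
  refine prod_le_one (fun l hl => ?_) fun l hl => ?_
  · have h2 : (2 : ℝ) ≤ l := by exact_mod_cast (Nat.prime_of_mem_primeFactors hl).two_le
    have h3 : 2 / (l : ℝ) ≤ 1 := by rw [div_le_one (by linarith)]; exact h2
    have h4 : 1 / (l : ℝ) ≤ 1 := by rw [div_le_one (by linarith)]; linarith
    split_ifs <;> linarith
  · have h2 : 0 ≤ 2 / (l : ℝ) := by positivity
    have h3 : 0 ≤ 1 / (l : ℝ) := by positivity
    split_ifs <;> linarith

lemma HC_log_sq (K : ℝ) (hK : 0 < K) : ∃ w₀ : ℕ, ∀ w : ℕ, w₀ ≤ w → K * Real.log w ^ 2 ≤ w := by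
  have h := (Real.isLittleO_pow_log_id_atTop (n := 2)).def (c := 1 / K) (by positivity)
  have h2 := tendsto_natCast_atTop_atTop (R := ℝ) |>.eventually h
  obtain ⟨w₀, hw₀⟩ := Filter.eventually_atTop.mp h2
  refine ⟨w₀, fun w hw => ?_⟩
  have h3 := hw₀ w hw
  simp only [id, Real.norm_eq_abs, Nat.abs_cast] at h3
  rw [abs_of_nonneg (by positivity)] at h3
  have h4 := mul_le_mul_of_nonneg_left h3 hK.le
  calc K * Real.log w ^ 2 ≤ K * (1 / K * w) := h4
    _ = w := by field_simp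

theorem HC (h1 : LA_stmt) (h2 : CL_stmt) (h3 : EE_stmt) (h4 : MP_stmt) (h5 : VL_stmt) : HC_stmt := by
  classical
  intro ε hε
  obtain ⟨C, hC, hEE⟩ := h3
  obtain ⟨c, hc, hMP⟩ := h4
  obtain ⟨w₀, hw₀⟩ := HC_log_sq (24 * C / (ε * c ^ 2)) (by positivity)
  refine ⟨max w₀ 5, fun w hw => ⟨3, fun N hN => ?_⟩⟩
  have hw5 : 5 ≤ w := (le_max_right _ _).trans hw
  have hww : w₀ ≤ w := (le_max_left _ _).trans hw
  set W := primorial w with hW
  have hW0 : 0 < W := primorial_pos w
  have h30 : 30 ∣ W := by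
    refine dvd_trans ?_ (primorial_dvd_primorial hw5)
    decide
  obtain ⟨M₀, hM₀⟩ := h1 W N hW0 (ε / 2) (by positivity)
  refine ⟨max M₀ 1, fun M hM u hu => ?_⟩
  have hM1 : 1 ≤ M := (le_max_right _ _).trans hM
  have hMM : M₀ ≤ M := (le_max_left _ _).trans hM
  have hLA := hM₀ M hMM u
  have hEE' := hEE w N M u (by omega) (by omega) hM1 hu
  have hVL := (h5 W N hW0 h30 (by omega)).1
  have hMP' := hMP w (by omega)
  rw [← hW] at hMP'
  have hwr : (5 : ℝ) ≤ w := by exact_mod_cast hw5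
  have hlogw : 0 < Real.log w := Real.log_pos (by linarith)
  have hlogN : 1 ≤ Real.log N := by
    have h3 : (3 : ℝ) ≤ N := by exact_mod_cast hN
    rw [Real.le_log_iff_exp_le (by linarith)]
    linarith [Real.exp_one_lt_d9]
  -- the comparison of sums
  have hsum : cW W * Sm Adm SS N M u ≤ Sm Adm (Lam W) N M u +
      ∑ a ∈ Icc 1 N, ∑ b ∈ Icc 1 N, 1 / ((a : ℝ) * (b : ℝ) ^ 2) *
      ∑ c ∈ Ioc ((b : ℤ) * u) ((b : ℤ) * (u + M)) with c ≠ 0,
        (Er w a * Er w b * Er w c.natAbs - 1) := by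
    unfold Sm
    rw [mul_sum, ← sum_add_distrib]
    refine sum_le_sum fun a _ => ?_
    rw [mul_sum, ← sum_add_distrib]
    refine sum_le_sum fun b _ => ?_
    have e1 : cW W * (1 / ((a : ℝ) * (b : ℝ) ^ 2) *
        ∑ c ∈ Ioc ((b : ℤ) * u) ((b : ℤ) * (u + M)) with Adm a b c, SS a b c)
        = 1 / ((a : ℝ) * (b : ℝ) ^ 2) *
        ∑ c ∈ Ioc ((b : ℤ) * u) ((b : ℤ) * (u + M)) with Adm a b c, cW W * SS a b c := by
      rw [← mul_sum]; ring
    rw [e1, ← mul_add]
    refine mul_le_mul_of_nonneg_left ?_ (by positivity)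
    have e2 : ∑ c ∈ Ioc ((b : ℤ) * u) ((b : ℤ) * (u + M)) with Adm a b c, cW W * SS a b c
        ≤ ∑ c ∈ Ioc ((b : ℤ) * u) ((b : ℤ) * (u + M)) with Adm a b c,
          (Lam W a b c + (Er w a * Er w b * Er w c.natAbs - 1)) := by
      refine sum_le_sum fun c hc => ?_
      have hadm := (mem_filter.mp hc).2
      rw [hW, h2 w a b c (by omega) hadm]
      have f1 := HC_Er_one_le w a (by omega)
      have f2 := HC_Er_one_le w b (by omega)
      have f3 := HC_Er_one_le w c.natAbs (by omega)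
      have f4 := HC_Lam_le_one (primorial w) a b c
      have f5 := HC_Lam_nonneg (primorial w) a b c
      have f6 : 1 ≤ Er w a * Er w b * Er w c.natAbs := by
        have : 1 ≤ Er w a * Er w b := one_le_mul_of_one_le_of_one_le f1 f2
        exact one_le_mul_of_one_le_of_one_le this f3
      nlinarith
    refine e2.trans ?_
    rw [sum_add_distrib]
    refine add_le_add_right ?_ _
    refine sum_le_sum_of_subset_of_nonneg (fun c hc => ?_) fun c _ _ => ?_
    · obtain ⟨g1, g2⟩ := mem_filter.mp hc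
      exact mem_filter.mpr ⟨g1, g2.2.2.1⟩
    · have f1 := HC_Er_one_le w a (by omega)
      have f2 := HC_Er_one_le w b (by omega)
      have f3 := HC_Er_one_le w c.natAbs (by omega)
      have : 1 ≤ Er w a * Er w b := one_le_mul_of_one_le_of_one_le f1 f2
      have := one_le_mul_of_one_le_of_one_le this f3
      linarith
  have hfin : C / w * (1 + Real.log N) ^ 2 ≤ ε / 2 * (PW W ^ 2 * VW W N) := by
    have g1 : (1 + Real.log N) ^ 2 ≤ 4 * Real.log N ^ 2 := by nlinarith
    have g2 : (c / Real.log w) ^ 2 ≤ PW W ^ 2 := pow_le_pow_left₀ (by positivity) hMP' 2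
    have g3 : (c / Real.log w) ^ 2 * (Real.log N ^ 2 / 3) ≤ PW W ^ 2 * VW W N :=
      mul_le_mul g2 hVL (by positivity) (by positivity)
    have g4 := hw₀ w hww
    have g5 : C / w * (4 * Real.log N ^ 2) ≤
        ε / 2 * ((c / Real.log w) ^ 2 * (Real.log N ^ 2 / 3)) := by
      have e1 : ε / 2 * ((c / Real.log w) ^ 2 * (Real.log N ^ 2 / 3))
          = (ε * c ^ 2 * Real.log N ^ 2) / (6 * Real.log w ^ 2) := by
        field_simp
        ring
      have e2 : C / w * (4 * Real.log N ^ 2) = (4 * C * Real.log N ^ 2) / w := by ring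
      rw [e1, e2, div_le_div_iff₀ (by positivity) (by positivity)]
      have e3 : 24 * C * Real.log w ^ 2 ≤ ε * c ^ 2 * w := by
        have := mul_le_mul_of_nonneg_left g4 (by positivity : 0 ≤ ε * c ^ 2)
        calc 24 * C * Real.log w ^ 2 = ε * c ^ 2 * (24 * C / (ε * c ^ 2) * Real.log w ^ 2) := by
              field_simp
          _ ≤ _ := this
      have e4 := mul_le_mul_of_nonneg_left e3 (by positivity : 0 ≤ Real.log N ^ 2)
      linarith
    calc C / w * (1 + Real.log N) ^ 2 ≤ C / w * (4 * Real.log N ^ 2) := by gcongr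
      _ ≤ _ := g5
      _ ≤ _ := mul_le_mul_of_nonneg_left g3 (by positivity)
  have hMr : (0 : ℝ) ≤ M := Nat.cast_nonneg M
  have hfin2 := mul_le_mul_of_nonneg_left hfin hMr
  calc cW W * Sm Adm SS N M u ≤ _ := hsum
    _ ≤ (1 + ε / 2) * M * PW W ^ 2 * VW W N + C / w * M * (1 + Real.log N) ^ 2 := add_le_add hLA hEE'
    _ ≤ (1 + ε) * M * PW W ^ 2 * VW W N := by linarith

end Pool.Agent.helper11.TX
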